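import Mathlib

namespace Pool.Agent.H.MP_9b64ae_co

open Finset

theorem hit {α : ℝ} (hα : Irrational α) (ρ a b : ℝ) (h0 : 0 ≤ a) (hab : a < b) (h1 : b ≤ 1) :
    ∃ i : ℕ, a < Int.fract (i * α + ρ) ∧ Int.fract (i * α + ρ) < b := by
  have d : DenseRange fun n : ℕ => n • (α : AddCircle (1 : ℝ)) :=
    denseRange_zsmul_iff_nsmul.1 (AddCircle.denseRange_zsmul_coe_iff.2 (by simpa using hα))
  obtain ⟨i, y, ⟨y1, y2⟩, e⟩ := d.exists_mem_open
    (QuotientAddGroup.isOpenMap_coe (Set.Ioo (a - ρ) (b - ρ)) isOpen_Ioo)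
    ((Set.nonempty_Ioo.2 (by linarith)).image _)
  obtain ⟨m, hm⟩ := QuotientAddGroup.eq.1 (e.trans (AddCircle.coe_nsmul (1 : ℝ)).symm)
  simp only [zsmul_eq_mul, mul_one, nsmul_eq_mul] at hm
  have : Int.fract (i * α + ρ) = y + ρ := by
    rw [show i * α + ρ = m + (y + ρ) by linarith, Int.fract_intCast_add, Int.fract_eq_self]
    constructor <;> linarith
  exact ⟨i, by linarith, by linarith⟩

theorem gap (A : Finset ℝ) : (∀ t ∈ A, 0 < t ∧ t < 1) → ∀ m ≤ A.card, ∃ a b : ℝ,
    (a = 0 ∨ a ∈ A) ∧ a < b ∧ b ≤ 1 ∧ ∀ x, a < x → x < b → (A.filter (· ≤ x)).card = m := by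
  induction A using Finset.induction_on_max with
  | empty => exact fun _ m hm => ⟨0, 1, .inl rfl, one_pos, le_rfl,
      fun _ _ _ => by simpa [eq_comm] using hm⟩
  | insert t A ht ih =>
    intro h m hm
    have hn : t ∉ A := fun h => lt_irrefl _ (ht t h)
    have h0 := h t (mem_insert_self _ _)
    rw [card_insert_of_notMem hn] at hm
    rcases hm.eq_or_lt with rfl | hm
    · refine ⟨t, 1, .inr (mem_insert_self _ _), h0.2, le_rfl, fun x x1 _ => ?_⟩
      rw [filter_true_of_mem, card_insert_of_notMem hn]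
      intro s hs
      rcases mem_insert.1 hs with rfl | hs
      exacts [x1.le, ((ht s hs).trans x1).le]
    · obtain ⟨a, b, a1, a2, a3, a4⟩ := ih (fun s hs => h s (mem_insert_of_mem hs)) m (by omega)
      refine ⟨a, min b t, a1.imp id mem_insert_of_mem, lt_min a2 ?_, (min_le_left _ _).trans a3,
        fun x x1 x2 => ?_⟩
      · rcases a1 with rfl | a1
        exacts [h0.1, ht a a1]
      · rw [filter_insert, if_neg (not_le.2 (lt_min_iff.1 x2).2), a4 x x1 (lt_min_iff.1 x2).1]

theorem ker {X Y : Type} (F : ℕ → X) (c : ℕ → Y) (h : ∀ i j, F i = F j ↔ c i = c j) :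
    (Set.range F).ncard = (Set.range c).ncard := by
  refine Set.ncard_congr (fun x hx => c hx.choose) (fun x hx => ⟨_, rfl⟩)
    (fun x y hx hy e => ?_) ?_
  · rw [← hx.choose_spec, ← hy.choose_spec]
    exact (h _ _).2 e
  · rintro _ ⟨i, rfl⟩
    exact ⟨F i, ⟨i, rfl⟩, (h _ _).1 (Exists.choose_spec (⟨i, rfl⟩ : F i ∈ Set.range F))⟩

theorem fl {x : ℝ} (h0 : 0 ≤ x) (h1 : x < 1) (y : ℝ) :
    ⌊x + y⌋ = ⌊y⌋ + if 1 - Int.fract y ≤ x then 1 else 0 := by
  have a := Int.fract_nonneg y
  have b := Int.fract_lt_one y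
  have c := Int.floor_add_fract y
  rw [Int.floor_eq_iff]
  split_ifs with h <;> push_cast <;> constructor <;> linarith

noncomputable def mech (α ρ : ℝ) (i : ℕ) : ZMod 2 :=
  ((⌊(i + 1 : ℕ) * α + ρ⌋ - ⌊i * α + ρ⌋ : ℤ) : ZMod 2)

theorem sturm {α : ℝ} (hα : Irrational α) (ρ : ℝ) (n : ℕ) :
    (Set.range fun i => (List.range n).map fun j => mech α ρ (i + j)).ncard = n + 1 := by
  classical
  set t : ℕ → ℝ := fun j => 1 - Int.fract ((j + 1 : ℕ) * α) with ht
  set x : ℕ → ℝ := fun i => Int.fract (i * α + ρ) with hx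
  have x0 : ∀ i, 0 ≤ x i := fun i => Int.fract_nonneg _
  have x1 : ∀ i, x i < 1 := fun i => Int.fract_lt_one _
  have tinj : Function.Injective t := by
    intro j k e
    obtain ⟨z, hz⟩ := Int.fract_eq_fract.1 (sub_right_injective e)
    by_contra hne
    refine (hα.intCast_mul (m := (j : ℤ) - k) (by omega)).ne_int z ?_
    rw [← hz]
    push_cast
    ring
  set e : ℕ → ℕ → ℤ := fun i j => if 1 - Int.fract (j * α) ≤ x i then 1 else 0 with he
  have hf : ∀ i j : ℕ, ⌊(i + j : ℕ) * α + ρ⌋ = ⌊i * α + ρ⌋ + ⌊j * α⌋ + e i j := by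
    intro i j
    rw [add_assoc, ← fl (x0 i) (x1 i), ← Int.floor_intCast_add, ← add_assoc, Int.floor_add_fract]
    congr 1
    push_cast
    ring
  have hm : ∀ i j : ℕ, mech α ρ (i + j) =
      ((⌊(j + 1 : ℕ) * α⌋ - ⌊j * α⌋ : ℤ) : ZMod 2) + (e i (j + 1) : ℤ) - (e i j : ℤ) := by
    intro i j
    unfold mech
    rw [add_assoc i, hf, hf]
    push_cast
    ring
  have e0 : ∀ i, e i 0 = 0 := fun i => by simp [he, x1 i]
  rw [ker _ (fun i => (((range n).image t).filter (· ≤ x i)).card), ← Nat.card_Iic,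
    ← Set.ncard_coe_finset]
  · congr 1
    ext m
    simp only [Set.mem_range, coe_Iic, Set.mem_Iic]
    have hc : ((range n).image t).card = n := by
      rw [card_image_of_injective _ tinj, card_range]
    refine ⟨fun ⟨i, hi⟩ => hi ▸ (card_filter_le _ _).trans hc.le, fun hm => ?_⟩
    have h01 : ∀ s ∈ (range n).image t, 0 < s ∧ s < 1 := by
      intro s hs
      obtain ⟨j, -, rfl⟩ := mem_image.1 hs
      refine ⟨sub_pos.2 (Int.fract_lt_one _), sub_lt_self _ (Int.fract_pos.2 ?_)⟩
      exact (hα.natCast_mul (by omega)).ne_int _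
    obtain ⟨a, b, a1, a2, a3, a4⟩ := gap _ h01 m (hc.symm ▸ hm)
    obtain ⟨i, i1, i2⟩ := hit hα ρ a b (a1.elim (·.ge) fun h => (h01 a h).1.le) a2 a3
    exact ⟨i, a4 _ i1 i2⟩
  · intro i k
    have s1 : ((List.range n).map fun j => mech α ρ (i + j)) =
        ((List.range n).map fun j => mech α ρ (k + j)) ↔ ∀ j < n, e i (j + 1) = e k (j + 1) := by
      simp only [List.map_inj_left, List.mem_range, hm]
      refine ⟨fun h => ?_, fun h j hj => ?_⟩
      · have : ∀ j ≤ n, e i j = e k j := by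
          intro j
          induction j with
          | zero => exact fun _ => (e0 i).trans (e0 k).symm
          | succ j ih =>
            intro hj
            have h2 := h j hj
            rw [ih (by omega), sub_left_inj, add_right_inj] at h2
            simp only [he] at h2 ⊢
            split_ifs at h2 ⊢ <;> first | rfl | exact absurd h2 (by decide)
        exact fun j hj => this _ hj
      · rw [h j hj]
        cases j with
        | zero => rw [e0, e0]
        | succ j => rw [h j (by omega)]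
    have s2 : (∀ j < n, e i (j + 1) = e k (j + 1)) ↔
        ((range n).image t).filter (· ≤ x i) = ((range n).image t).filter (· ≤ x k) := by
      simp only [filter_inj', mem_image, mem_range, forall_exists_index, and_imp,
        forall_apply_eq_imp_iff₂]
      refine forall₂_congr fun j _ => ?_
      simp only [he, ht]
      split_ifs with h1 h2 h2 <;> simp only [h1, h2] <;> decide
    rw [s1, s2]
    refine ⟨fun h => by rw [h], fun h => ?_⟩
    rcases le_total (x i) (x k) with l | l
    · exact eq_of_subset_of_card_le (monotone_filter_right _ fun s _ hs => le_trans hs l) h.ge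
    · exact (eq_of_subset_of_card_le (monotone_filter_right _ fun s _ hs => le_trans hs l)
        h.le).symm

end Pool.Agent.H.MP_9b64ae_co
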